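import Mathlib
import Pool.Agent.MP_8702f5_pr.Mg.SFinal

/-! The order of growth of the largest common subtree of two conditioned heavy-tailed Bienayme
trees: it is `exp ((1 / (2 log α) + o(1)) (log log n) ^ 2)` times the minimum of the maximum
degrees, and times `n ^ (1 / α')`. -/

namespace Pool.Agent.Results.MP_8702f5_pr.Sharp

open Filter Topology Pool.Agent.MP_8702f5_pr

theorem result :
    (∀ α : ℝ, 1 < α → ∃ (μ : ℕ → ℝ) (c : ℝ), 0 < c ∧ HeavyTailed μ c α) ∧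
    ∀ (μ μ' : ℕ → ℝ) (c c' α α' : ℝ), HeavyTailed μ c α → HeavyTailed μ' c' α' → 0 < c → 0 < c' →
      1 < α → α ≤ α' → α' < 2 →
      {n : ℕ | 0 < sizeProb μ n ∧ 0 < sizeProb μ' n}.Infinite ∧ ∀ ε : ℝ, 0 < ε →
        Tendsto (fun n : ℕ => pairProb μ μ' n fun t t' =>
          (Real.exp ((1 / (2 * Real.log α) - ε) * Real.log (Real.log n) ^ 2) *
              (min t.maxDeg t'.maxDeg : ℕ) ≤ LCS t t' ∧
            (LCS t t' : ℝ) ≤ Real.exp ((1 / (2 * Real.log α) + ε) * Real.log (Real.log n) ^ 2) *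
              (min t.maxDeg t'.maxDeg : ℕ)) ∧
          (Real.exp ((1 / (2 * Real.log α) - ε) * Real.log (Real.log n) ^ 2) *
              (n : ℝ) ^ (1 / α') ≤ LCS t t' ∧
            (LCS t t' : ℝ) ≤ Real.exp ((1 / (2 * Real.log α) + ε) * Real.log (Real.log n) ^ 2) *
              (n : ℝ) ^ (1 / α')))
        (atTop ⊓ 𝓟 {n : ℕ | 0 < sizeProb μ n ∧ 0 < sizeProb μ' n}) (𝓝 1) := by
  refine ⟨fun _ h => exists_heavyTailed h, fun _ _ _ _ _ _ hμ hμ' hc hc' h1 h2 h3 =>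
    ⟨(final hμ hμ' hc hc' h1 h2 h3).1, fun ε hε =>
      (final_sharp hμ hμ' hc hc' h1 h2 h3 hε).congr fun n => ?_⟩⟩
  congr 1
  funext t t'
  exact propext (by tauto)

end Pool.Agent.Results.MP_8702f5_pr.Sharp
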